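import Mathlib
import Pool.Agent.Work.MP_d39bc3_gt.Main

set_option autoImplicit false

open Pool.Agent.Work.MP_d39bc3_gt

/-- For every `n ≥ 2` the domain `x_0, …, x_n > 0`, `x_0 ⋯ x_n > 1` of `ℝ^(n+1)` is a strictly
convex domain with smooth boundary and has the section-centroid collinearity property, but its
boundary is neither an ellipsoid, nor a paraboloid, nor one sheet of a two-sheeted hyperboloid. -/
theorem Pool.Agent.Results.MP_d39bc3_gt.ProductDomain.result (n : ℕ) (hn : 2 ≤ n) :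
    ∃ Om : Set (EuclideanSpace ℝ (Fin (n + 1))), Om = {x | (∀ i, 0 < x i) ∧ 1 < ∏ i, x i} ∧
      IsStrictlyConvexDomain Om ∧ HasSmoothBoundary Om ∧ SCCP n Om ∧
      ¬ IsEllipsoid n (frontier Om) ∧ ¬ IsParaboloid n (frontier Om) ∧
      ¬ IsHyperboloidSheet n (frontier Om) :=
  ⟨Om n, rfl, isStrictlyConvexDomain_Om, hasSmoothBoundary_Om, sccp_Om, not_ellipsoid hn,
    not_paraboloid hn, not_hyperboloidSheet hn⟩
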